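import Mathlib

set_option autoImplicit false
set_option linter.unusedSectionVars false

/-!
Finite group actions with a bounded base: if the group has a set with trivial setwise stabiliser,
then it has such a set of bounded size.
-/

namespace Pool.Agent.Lib.MP_ff3c98_co

open Finset

section

variable {Γ V : Type} [Group Γ] [Fintype Γ] [DecidableEq Γ] [Fintype V] [DecidableEq V]
  [MulAction Γ V]

/-- The orbit of `b` as a finset. -/
def orb (Γ : Type) {V : Type} [Group Γ] [Fintype Γ] [DecidableEq V] [MulAction Γ V] (b : V) :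
    Finset V :=
  Finset.univ.image (fun x : Γ => x • b)

theorem mem_orb {b y : V} : y ∈ orb Γ b ↔ ∃ x : Γ, x • b = y := by
  simp [orb]

theorem fiber_card {b y : V} (hy : y ∈ orb Γ b) :
    (univ.filter (fun x : Γ => x • b = y)).card = (univ.filter (fun x : Γ => x • b = b)).card := by
  obtain ⟨x₀, rfl⟩ := mem_orb.1 hy
  symm
  apply Finset.card_bij (fun x _ => x₀ * x)
  · intro x hx
    simp only [mem_filter, mem_univ, true_and] at hx ⊢
    rw [mul_smul, hx]
  · intro x _ x' _ h
    exact mul_left_cancel h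
  · intro x hx
    simp only [mem_filter, mem_univ, true_and] at hx
    refine ⟨x₀⁻¹ * x, ?_, by simp⟩
    simp only [mem_filter, mem_univ, true_and]
    rw [mul_smul, hx, inv_smul_smul]

theorem card_mul (b : V) :
    (orb Γ b).card * (univ.filter (fun x : Γ => x • b = b)).card = Fintype.card Γ := by
  have h := Finset.card_eq_sum_card_image (fun x : Γ => x • b) (univ : Finset Γ)
  rw [Finset.card_univ] at h
  rw [h]
  have : ∀ y ∈ (univ.image (fun x : Γ => x • b)),
      (univ.filter (fun x : Γ => x • b = y)).card = (univ.filter (fun x : Γ => x • b = b)).card :=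
    fun y hy => fiber_card (by simpa [orb] using hy)
  rw [Finset.sum_congr rfl this, Finset.sum_const, smul_eq_mul]
  rfl

theorem stab_pos (b : V) : 0 < (univ.filter (fun x : Γ => x • b = b)).card := by
  apply Finset.card_pos.2
  exact ⟨1, by simp⟩

theorem card_hit_le (b : V) (A : Finset V) :
    (univ.filter (fun x : Γ => x • b ∈ A)).card ≤
      A.card * (univ.filter (fun x : Γ => x • b = b)).card := by
  classical
  have h1 : (univ.filter (fun x : Γ => x • b ∈ A)) ⊆
      A.biUnion (fun y => univ.filter (fun x : Γ => x • b = y)) := by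
    intro x hx
    simp only [mem_filter, mem_univ, true_and] at hx
    simp only [mem_biUnion, mem_filter, mem_univ, true_and]
    exact ⟨_, hx, rfl⟩
  refine (Finset.card_le_card h1).trans ?_
  refine Finset.card_biUnion_le.trans ?_
  rw [← smul_eq_mul, ← Finset.sum_const]
  apply Finset.sum_le_sum
  intro y hy
  by_cases hyo : y ∈ orb Γ b
  · rw [fiber_card hyo]
  · have : (univ.filter (fun x : Γ => x • b = y)) = ∅ := by
      apply Finset.filter_eq_empty_iff.2
      intro x _ hx
      exact hyo (mem_orb.2 ⟨x, hx⟩)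
    rw [this]
    simp

/-- Some translate of the tuple `b` avoids given small sets. -/
theorem avoid {e : ℕ} (b : Fin e → V) (A : Fin e → Finset V)
    (h : ∀ i, e * (A i).card < (orb Γ (b i)).card) : ∃ x : Γ, ∀ i, x • b i ∉ A i := by
  rcases Nat.eq_zero_or_pos e with he | he
  · subst he
    exact ⟨1, fun i => i.elim0⟩
  by_contra hcon
  push Not at hcon
  have h1 : (univ : Finset Γ) ⊆
      (univ : Finset (Fin e)).biUnion (fun i => univ.filter (fun x : Γ => x • b i ∈ A i)) := by
    intro x _
    obtain ⟨i, hi⟩ := hcon x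
    simp only [mem_biUnion, mem_univ, true_and, mem_filter]
    exact ⟨i, hi⟩
  have h2 : Fintype.card Γ ≤
      ∑ i : Fin e, (univ.filter (fun x : Γ => x • b i ∈ A i)).card := by
    rw [← Finset.card_univ]
    exact (Finset.card_le_card h1).trans Finset.card_biUnion_le
  have h3 : ∀ i : Fin e, e * (univ.filter (fun x : Γ => x • b i ∈ A i)).card <
      Fintype.card Γ := by
    intro i
    calc e * (univ.filter (fun x : Γ => x • b i ∈ A i)).card
        ≤ e * ((A i).card * (univ.filter (fun x : Γ => x • b i = b i)).card) :=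
          Nat.mul_le_mul_left _ (card_hit_le _ _)
      _ = (e * (A i).card) * (univ.filter (fun x : Γ => x • b i = b i)).card := by ring
      _ < (orb Γ (b i)).card * (univ.filter (fun x : Γ => x • b i = b i)).card :=
          Nat.mul_lt_mul_of_pos_right (h i) (stab_pos _)
      _ = Fintype.card Γ := card_mul _
  have h4 : e * Fintype.card Γ ≤
      ∑ i : Fin e, e * (univ.filter (fun x : Γ => x • b i ∈ A i)).card := by
    rw [← Finset.mul_sum]
    exact Nat.mul_le_mul_left _ h2
  have h5 : ∑ i : Fin e, e * (univ.filter (fun x : Γ => x • b i ∈ A i)).card <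
      ∑ _i : Fin e, Fintype.card Γ := by
    apply Finset.sum_lt_sum_of_nonempty
    · exact ⟨⟨0, he⟩, mem_univ _⟩
    · intro i _
      exact h3 i
  rw [Finset.sum_const, Finset.card_univ, Fintype.card_fin, smul_eq_mul] at h5
  omega

/-- Points of the orbit of `b` moved by `g`. -/
def moved (g : Γ) (b : V) : Finset V := (orb Γ b).filter (fun y => g • y ≠ y)

/-- The standing assumptions: `Sg` is an invariant set, and `Sg` together with `b` is a base. -/
structure Setup (Γ : Type) {V : Type} [Group Γ] [Fintype Γ] [DecidableEq V] [MulAction Γ V]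
    (e : ℕ) (Sg : Finset V) (b : Fin e → V) : Prop where
  inv : ∀ (g : Γ), ∀ v ∈ Sg, g • v ∈ Sg
  base : ∀ g : Γ, (∀ v ∈ Sg, g • v = v) → (∀ i, g • b i = b i) → g = 1

variable {e : ℕ} {Sg : Finset V} {b : Fin e → V}

theorem eq_one_of_few (hS : Setup Γ e Sg b) (k : Γ) (hk : ∀ v ∈ Sg, k • v = v)
    (h : ∀ i, e * (moved k (b i)).card < (orb Γ (b i)).card) : k = 1 := by
  obtain ⟨x, hx⟩ := avoid (Γ := Γ) b (fun i => moved k (b i)) h
  have h1 : x⁻¹ * k * x = 1 := by
    apply hS.base
    · intro v hv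
      rw [mul_smul, mul_smul, hk _ (hS.inv x v hv), inv_smul_smul]
    · intro i
      have h2 := hx i
      simp only [moved, mem_filter, not_and, not_not] at h2
      have h3 := h2 (mem_orb.2 ⟨x, rfl⟩)
      rw [mul_smul, mul_smul, h3, inv_smul_smul]
  have : k = x * (x⁻¹ * k * x) * x⁻¹ := by group
  rw [this, h1]
  simp

/-- Elements moving few points of every orbit `orb (b i)`. -/
def Few (Γ : Type) {V : Type} [Group Γ] [Fintype Γ] [DecidableEq V] [MulAction Γ V]
    {e : ℕ} (b : Fin e → V) : Finset Γ :=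
  univ.filter (fun g => ∀ i, 2 * e * (moved g (b i)).card < (orb Γ (b i)).card)

theorem pow_self_le {s m : ℕ} (h : s ≤ m) : s ^ s ≤ m ^ m := by
  rcases Nat.eq_zero_or_pos s with hs | hs
  · subst hs
    rcases Nat.eq_zero_or_pos m with hm | hm
    · subst hm; simp
    · simpa using Nat.one_le_pow _ _ hm
  · calc s ^ s ≤ m ^ s := Nat.pow_le_pow_left h s
      _ ≤ m ^ m := Nat.pow_le_pow_right (by omega) h

theorem few_card (hS : Setup Γ e Sg b) : (Few Γ b).card ≤ Sg.card ^ Sg.card := by
  classical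
  let φ : Γ → (Sg → Sg) := fun g v => ⟨g • (v : V), hS.inv g v v.2⟩
  have h1 : (Few Γ b).card ≤ (univ : Finset (Sg → Sg)).card := by
    apply Finset.card_le_card_of_injOn φ (fun _ _ => mem_coe.2 (mem_univ _))
    intro g hg h hh hgh
    have hk : ∀ v ∈ Sg, (g⁻¹ * h) • v = v := by
      intro v hv
      have := congrFun hgh ⟨v, hv⟩
      simp only [φ, Subtype.mk.injEq] at this
      rw [mul_smul, ← this, inv_smul_smul]
    have hone : g⁻¹ * h = 1 := by
      apply eq_one_of_few hS _ hk
      intro i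
      have hg' := (mem_filter.1 (mem_coe.1 hg)).2 i
      have hh' := (mem_filter.1 (mem_coe.1 hh)).2 i
      have hsub : moved (g⁻¹ * h) (b i) ⊆ moved g (b i) ∪ moved h (b i) := by
        intro y hy
        simp only [moved, mem_filter, mem_union] at hy ⊢
        by_contra hcon
        push Not at hcon
        have e1 : g • y = y := by
          by_contra hne
          exact hne (hcon.1 hy.1)
        have e2 : h • y = y := by
          by_contra hne
          exact hne (hcon.2 hy.1)
        apply hy.2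
        rw [mul_smul, e2, inv_smul_eq_iff, e1]
      have hle := (Finset.card_le_card hsub).trans (Finset.card_union_le _ _)
      have : e * (moved (g⁻¹ * h) (b i)).card ≤
          e * (moved g (b i)).card + e * (moved h (b i)).card := by
        rw [← Nat.mul_add]
        exact Nat.mul_le_mul_left _ hle
      have e3 : 2 * e * (moved g (b i)).card = 2 * (e * (moved g (b i)).card) := by ring
      have e4 : 2 * e * (moved h (b i)).card = 2 * (e * (moved h (b i)).card) := by ring
      omega
    exact (inv_mul_eq_one.1 hone)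
  rw [Finset.card_univ, Fintype.card_fun, Fintype.card_coe] at h1
  exact h1

/-- Elements carrying the tuple `b` into `A`. -/
def D (Γ : Type) {V : Type} [Group Γ] [Fintype Γ] [DecidableEq V] [MulAction Γ V]
    {e : ℕ} (b : Fin e → V) (A : Finset V) : Finset Γ :=
  univ.filter (fun x => ∀ i, x • b i ∈ A)

/-- Elements carrying some translate of `b` inside `A` into `A`. -/
def K (Γ : Type) {V : Type} [Group Γ] [Fintype Γ] [DecidableEq Γ] [DecidableEq V] [MulAction Γ V]
    {e : ℕ} (b : Fin e → V) (A : Finset V) : Finset Γ :=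
  Finset.image₂ (fun u v => u * v⁻¹) (D Γ b A) (D Γ b A)

theorem mem_K {A : Finset V} {g x : Γ} (h1 : ∀ i, x • b i ∈ A) (h2 : ∀ i, (g * x) • b i ∈ A) :
    g ∈ K Γ b A := by
  rw [K, Finset.mem_image₂]
  refine ⟨g * x, by simpa [D] using h2, x, by simpa [D] using h1, by group⟩

theorem D_card (hS : Setup Γ e Sg b) (A : Finset V) :
    (D Γ b A).card ≤ A.card ^ e * Sg.card ^ Sg.card := by
  classical
  by_cases hA : A.Nonempty ∨ e = 0
  swap
  · push Not at hA
    obtain ⟨hA, he⟩ := hA
    have : D Γ b A = ∅ := by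
      apply Finset.filter_eq_empty_iff.2
      intro x _ hx
      have := hx ⟨0, Nat.pos_of_ne_zero he⟩
      rw [hA] at this
      exact absurd this (Finset.notMem_empty _)
    rw [this]
    simp
  · let φ : Γ → (Fin e → V) × (Sg → Sg) := fun g =>
      (fun i => g • b i, fun v => ⟨g • (v : V), hS.inv g v v.2⟩)
    have h1 : (D Γ b A).card ≤
        ((Fintype.piFinset (fun _ : Fin e => A)) ×ˢ (univ : Finset (Sg → Sg))).card := by
      apply Finset.card_le_card_of_injOn φ
      · intro g hg
        have hg' := (mem_filter.1 (mem_coe.1 hg)).2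
        simp only [coe_product, Set.mem_prod, mem_coe, Fintype.mem_piFinset, mem_univ, and_true,
          φ]
        exact hg'
      · intro g _ h _ hgh
        simp only [φ, Prod.mk.injEq] at hgh
        obtain ⟨e1, e2⟩ := hgh
        have hone : g⁻¹ * h = 1 := by
          apply hS.base
          · intro v hv
            have := congrFun e2 ⟨v, hv⟩
            simp only [Subtype.mk.injEq] at this
            rw [mul_smul, ← this, inv_smul_smul]
          · intro i
            have : g • b i = h • b i := congrFun e1 i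
            rw [mul_smul, ← this, inv_smul_smul]
        exact inv_mul_eq_one.1 hone
    rw [Finset.card_product, Fintype.card_piFinset_const, Finset.card_univ, Fintype.card_fun,
      Fintype.card_coe] at h1
    exact h1

theorem K_card (hS : Setup Γ e Sg b) {m a : ℕ} (hm : Sg.card ≤ m) {A : Finset V}
    (hA : A.card ≤ a) : (K Γ b A).card ≤ (a ^ e * m ^ m) ^ 2 := by
  have h1 : (K Γ b A).card ≤ (D Γ b A).card * (D Γ b A).card := Finset.card_image₂_le _ _ _
  have h2 : (D Γ b A).card ≤ a ^ e * m ^ m :=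
    (D_card hS A).trans (Nat.mul_le_mul (Nat.pow_le_pow_left hA e) (pow_self_le hm))
  rw [sq]
  exact h1.trans (Nat.mul_le_mul h2 h2)

/-- The set `K(A) A`. -/
def KA (Γ : Type) {V : Type} [Group Γ] [Fintype Γ] [DecidableEq Γ] [DecidableEq V] [MulAction Γ V]
    {e : ℕ} (b : Fin e → V) (A : Finset V) : Finset V :=
  Finset.image₂ (fun (g : Γ) (v : V) => g • v) (K Γ b A) A

theorem KA_card (hS : Setup Γ e Sg b) {m a : ℕ} (hm : Sg.card ≤ m) {A : Finset V}
    (hA : A.card ≤ a) : (KA Γ b A).card ≤ (a ^ e * m ^ m) ^ 2 * a :=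
  (Finset.card_image₂_le _ _ _).trans (Nat.mul_le_mul (K_card hS hm hA) hA)

/-- Adding one generic point `y` to `A`: an element stabilising `insert y A` fixes `y` and
stabilises `A`. -/
theorem stab_insert {A : Finset V} {x₁ x₂ : Γ} (h1 : ∀ i, x₁ • b i ∈ A) (h2 : ∀ i, x₂ • b i ∈ A)
    (hdis : ∀ i j, x₁ • b i ≠ x₂ • b j) {y : V} (hy : y ∉ KA Γ b A) {g : Γ}
    (hg : ∀ v ∈ insert y A, g • v ∈ insert y A) :
    g • y = y ∧ ∀ v ∈ A, g • v ∈ A := by
  -- find a block not hitting `y`
  have hblock : ∃ x : Γ, (∀ i, x • b i ∈ A) ∧ ∀ i, (g * x) • b i ∈ A := by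
    by_cases hc : ∃ i, g • (x₁ • b i) = y
    · obtain ⟨i, hi⟩ := hc
      refine ⟨x₂, h2, fun j => ?_⟩
      have h3 := hg _ (mem_insert_of_mem (h2 j))
      rw [mul_smul]
      rcases mem_insert.1 h3 with h4 | h4
      · exfalso
        apply hdis i j
        have := hi.trans h4.symm
        exact (MulAction.injective g) this
      · exact h4
    · push Not at hc
      refine ⟨x₁, h1, fun j => ?_⟩
      have h3 := hg _ (mem_insert_of_mem (h1 j))
      rw [mul_smul]
      rcases mem_insert.1 h3 with h4 | h4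
      · exact absurd h4 (hc j)
      · exact h4
  obtain ⟨x, hx1, hx2⟩ := hblock
  have hgK : g ∈ K Γ b A := mem_K hx1 hx2
  have hAA : ∀ v ∈ A, g • v ∈ A := by
    intro v hv
    rcases mem_insert.1 (hg v (mem_insert_of_mem hv)) with h | h
    · exfalso
      apply hy
      rw [← h]
      exact Finset.mem_image₂_of_mem hgK hv
    · exact h
  refine ⟨?_, hAA⟩
  rcases mem_insert.1 (hg y (mem_insert_self _ _)) with h | h
  · exact h
  · exfalso
    -- `g` maps `A` bijectively onto itself, so `g • y ∈ A` forces `y ∈ A`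
    have himg : A.image (fun v => g • v) = A := by
      apply Finset.eq_of_subset_of_card_le
      · intro w hw
        obtain ⟨v, hv, rfl⟩ := mem_image.1 hw
        exact hAA v hv
      · rw [Finset.card_image_of_injective _ (MulAction.injective g)]
    have : g • y ∈ A.image (fun v => g • v) := by rw [himg]; exact h
    obtain ⟨v, hv, hvy⟩ := mem_image.1 this
    have hvy' : v = y := (MulAction.injective g) hvy
    subst hvy'
    apply hy
    have h1K : (1 : Γ) ∈ K Γ b A := mem_K h1 (by simpa using h1)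
    have := Finset.mem_image₂_of_mem (f := fun (g : Γ) (v : V) => g • v) h1K hv
    simpa [KA] using this

/-- Successively adding generic points moved by the elements of `G`. -/
theorem extend (hS : Setup Γ e Sg b) {m amax : ℕ} (hm : Sg.card ≤ m) (Z A₀ : Finset V)
    {x₁ x₂ : Γ} (h1 : ∀ i, x₁ • b i ∈ A₀) (h2 : ∀ i, x₂ • b i ∈ A₀)
    (hdis : ∀ i j, x₁ • b i ≠ x₂ • b j) (hZ : Disjoint A₀ Z)
    (hN : ∀ i, 2 * e * (Z.card + (amax ^ e * m ^ m) ^ 2 * amax) < (orb Γ (b i)).card)
    (G : Finset Γ) : (∀ g ∈ G, g ∉ Few Γ b) → A₀.card + G.card ≤ amax →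
    ∃ A : Finset V, A₀ ⊆ A ∧ A.card ≤ A₀.card + G.card ∧ Disjoint A Z ∧
      (∀ g : Γ, (∀ v ∈ A, g • v ∈ A) →
        (∀ v ∈ A₀, g • v ∈ A₀) ∧ ∀ y ∈ A, y ∉ A₀ → g • y = y) ∧
      (∀ g ∈ G, ∃ y ∈ A, y ∉ A₀ ∧ g • y ≠ y) := by
  induction G using Finset.induction_on with
  | empty =>
    intro _ _
    refine ⟨A₀, Finset.Subset.refl _, by simp, hZ, fun g hg => ⟨hg, fun y hy hy' => absurd hy hy'⟩,
      by simp⟩
  | insert g₀ G hg₀ ih =>
    intro hF hcard
    rw [Finset.card_insert_of_notMem hg₀] at hcard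
    obtain ⟨A, hA1, hA2, hA3, hA4, hA5⟩ :=
      ih (fun g hg => hF g (mem_insert_of_mem hg)) (by omega)
    -- `g₀` moves many points of some orbit
    have hnf := hF g₀ (mem_insert_self _ _)
    simp only [Few, mem_filter, mem_univ, true_and, not_forall, not_lt] at hnf
    obtain ⟨i, hi⟩ := hnf
    have hAcard : A.card ≤ amax := by omega
    have hlt : (Z ∪ KA Γ b A).card < (moved g₀ (b i)).card := by
      have e1 : (Z ∪ KA Γ b A).card ≤ Z.card + (amax ^ e * m ^ m) ^ 2 * amax :=
        (Finset.card_union_le _ _).trans (Nat.add_le_add_left (KA_card hS hm hAcard) _)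
      by_contra hcon
      push Not at hcon
      have e2 : 2 * e * (moved g₀ (b i)).card ≤
          2 * e * (Z.card + (amax ^ e * m ^ m) ^ 2 * amax) :=
        Nat.mul_le_mul_left _ (hcon.trans e1)
      have e3 := hN i
      omega
    obtain ⟨y, hy1, hy2⟩ := Finset.exists_mem_notMem_of_card_lt_card hlt
    have hyZ : y ∉ Z := fun h => hy2 (mem_union_left _ h)
    have hyK : y ∉ KA Γ b A := fun h => hy2 (mem_union_right _ h)
    have hmv : g₀ • y ≠ y := (mem_filter.1 hy1).2
    have h1A : ∀ i, x₁ • b i ∈ A := fun i => hA1 (h1 i)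
    have h2A : ∀ i, x₂ • b i ∈ A := fun i => hA1 (h2 i)
    have hyA : y ∉ A := by
      intro h
      apply hyK
      have h1K : (1 : Γ) ∈ K Γ b A := mem_K h1A (by simpa using h1A)
      have := Finset.mem_image₂_of_mem (f := fun (g : Γ) (v : V) => g • v) h1K h
      simpa [KA] using this
    refine ⟨insert y A, hA1.trans (Finset.subset_insert _ _), ?_, ?_, ?_, ?_⟩
    · rw [Finset.card_insert_of_notMem hyA, Finset.card_insert_of_notMem hg₀]
      omega
    · rw [Finset.disjoint_insert_left]
      exact ⟨hyZ, hA3⟩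
    · intro g hg
      obtain ⟨hfix', hst⟩ := stab_insert h1A h2A hdis hyK hg
      obtain ⟨k1, k2⟩ := hA4 g hst
      refine ⟨k1, ?_⟩
      intro y' hy' hy'0
      rcases mem_insert.1 hy' with h | h
      · rw [h]; exact hfix'
      · exact k2 y' h hy'0
    · intro g hg
      rcases mem_insert.1 hg with h | h
      · subst h
        exact ⟨y, mem_insert_self _ _, fun h => hyA (hA1 h), hmv⟩
      · obtain ⟨y', hy', hy'0, hmv'⟩ := hA5 g h
        exact ⟨y', mem_insert_of_mem hy', hy'0, hmv'⟩

/-- The bound in the case of large orbits. -/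
def smallBound (e m : ℕ) : ℕ :=
  (m ^ m + 2 * e) + (((m ^ m + 2 * e) ^ e * m ^ m) ^ 2)

def orbBound (e m : ℕ) : ℕ :=
  2 * e * (m ^ m + (smallBound e m ^ e * m ^ m) ^ 2 * smallBound e m) + e * (m ^ m + e)

theorem direct (hS : Setup Γ e Sg b) {m : ℕ} (hm : Sg.card ≤ m)
    (hN : ∀ i, orbBound e m < (orb Γ (b i)).card)
    (hX : ∃ X : Finset V, ∀ g : Γ, (∀ v ∈ X, g • v ∈ X) → g = 1) :
    ∃ S : Finset V, S.card ≤ smallBound e m ∧ ∀ g : Γ, (∀ v ∈ S, g • v ∈ S) → g = 1 := by
  classical
  obtain ⟨X, hX⟩ := hX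
  obtain ⟨F, hF⟩ : ∃ F : Finset Γ, F = (Few Γ b).erase 1 := ⟨_, rfl⟩
  have hv : ∀ g ∈ F, ∃ v : V, v ∈ X ∧ g • v ∉ X := by
    intro g hg
    rw [hF] at hg
    have hne : g ≠ 1 := (mem_erase.1 hg).1
    have : ¬ ∀ v ∈ X, g • v ∈ X := fun h => hne (hX g h)
    push Not at this
    exact this
  choose v hv using hv
  let S₀ : Finset V := F.attach.image (fun g => v g.1 g.2)
  let Z : Finset V := F.attach.image (fun g => g.1 • v g.1 g.2)
  have hFcard : F.card ≤ m ^ m := by
    rw [hF]
    exact (Finset.card_le_card (Finset.erase_subset _ _)).trans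
      ((few_card hS).trans (pow_self_le hm))
  have hS₀card : S₀.card ≤ m ^ m := by
    refine Finset.card_image_le.trans ?_
    rw [Finset.card_attach]
    exact hFcard
  have hZcard : Z.card ≤ m ^ m := by
    refine Finset.card_image_le.trans ?_
    rw [Finset.card_attach]
    exact hFcard
  have hS₀X : ∀ w ∈ S₀, w ∈ X := by
    intro w hw
    obtain ⟨g, _, rfl⟩ := mem_image.1 hw
    exact (hv g.1 g.2).1
  have hZX : ∀ w ∈ Z, w ∉ X := by
    intro w hw
    obtain ⟨g, _, rfl⟩ := mem_image.1 hw
    exact (hv g.1 g.2).2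
  have hSZ : Disjoint S₀ Z := by
    rw [Finset.disjoint_left]
    intro w hw hw'
    exact hZX w hw' (hS₀X w hw)
  -- two disjoint translates of the tuple `b` avoiding `Z`
  obtain ⟨x₁, hx₁⟩ := avoid (Γ := Γ) b (fun _ => Z) (fun i => by
    have := hN i
    have e1 : e * Z.card ≤ e * (m ^ m + e) := Nat.mul_le_mul_left _ (by omega)
    unfold orbBound at this
    omega)
  let B₁ : Finset V := univ.image (fun i => x₁ • b i)
  have hB₁card : B₁.card ≤ e := by
    refine Finset.card_image_le.trans ?_
    simp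
  obtain ⟨x₂, hx₂⟩ := avoid (Γ := Γ) b (fun _ => Z ∪ B₁) (fun i => by
    have := hN i
    have e0 : (Z ∪ B₁).card ≤ m ^ m + e := (Finset.card_union_le _ _).trans (by omega)
    have e1 : e * (Z ∪ B₁).card ≤ e * (m ^ m + e) := Nat.mul_le_mul_left _ e0
    unfold orbBound at this
    omega)
  let B₂ : Finset V := univ.image (fun i => x₂ • b i)
  have hB₂card : B₂.card ≤ e := by
    refine Finset.card_image_le.trans ?_
    simp
  let A₀ : Finset V := S₀ ∪ (B₁ ∪ B₂)
  have hA₀card : A₀.card ≤ m ^ m + 2 * e := by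
    have e1 := Finset.card_union_le S₀ (B₁ ∪ B₂)
    have e2 := Finset.card_union_le B₁ B₂
    show (S₀ ∪ (B₁ ∪ B₂)).card ≤ _
    omega
  have h1 : ∀ i, x₁ • b i ∈ A₀ := fun i =>
    mem_union_right _ (mem_union_left _ (mem_image.2 ⟨i, mem_univ _, rfl⟩))
  have h2 : ∀ i, x₂ • b i ∈ A₀ := fun i =>
    mem_union_right _ (mem_union_right _ (mem_image.2 ⟨i, mem_univ _, rfl⟩))
  have hdis : ∀ i j, x₁ • b i ≠ x₂ • b j := by
    intro i j h
    apply hx₂ j
    rw [← h]
    exact mem_union_right _ (mem_image.2 ⟨i, mem_univ _, rfl⟩)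
  have hA₀Z : Disjoint A₀ Z := by
    rw [Finset.disjoint_left]
    intro w hw hwZ
    rcases mem_union.1 hw with h | h
    · exact (Finset.disjoint_left.1 hSZ) h hwZ
    · rcases mem_union.1 h with h | h
      · obtain ⟨i, _, rfl⟩ := mem_image.1 h
        exact hx₁ i hwZ
      · obtain ⟨i, _, rfl⟩ := mem_image.1 h
        exact hx₂ i (mem_union_left _ hwZ)
  let G : Finset Γ := (K Γ b A₀).filter (fun g => g ∉ Few Γ b)
  have hGcard : G.card ≤ ((m ^ m + 2 * e) ^ e * m ^ m) ^ 2 :=
    (Finset.card_le_card (Finset.filter_subset _ _)).trans (K_card hS hm hA₀card)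
  obtain ⟨A, hA1, hA2, hA3, hA4, hA5⟩ := extend hS (amax := smallBound e m) hm Z A₀ h1 h2 hdis
    hA₀Z (fun i => by
      refine lt_of_le_of_lt ?_ (hN i)
      unfold orbBound
      refine le_trans ?_ (Nat.le_add_right _ _)
      exact Nat.mul_le_mul_left _ (Nat.add_le_add_right hZcard _)) G
    (fun g hg => (mem_filter.1 hg).2) (by unfold smallBound; omega)
  refine ⟨A, hA2.trans (by unfold smallBound; omega), ?_⟩
  intro g hg
  obtain ⟨k1, k2⟩ := hA4 g hg
  have hgK : g ∈ K Γ b A₀ := mem_K h1 (fun i => by rw [mul_smul]; exact k1 _ (h1 i))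
  by_cases hgF : g ∈ Few Γ b
  · by_contra hne
    have hgF' : g ∈ F := by
      rw [hF]
      exact mem_erase.2 ⟨hne, hgF⟩
    have hvA : v g hgF' ∈ A := hA1 (mem_union_left _
      (mem_image.2 ⟨⟨g, hgF'⟩, mem_attach _ _, rfl⟩))
    have hvZ : g • v g hgF' ∈ Z := mem_image.2 ⟨⟨g, hgF'⟩, mem_attach _ _, rfl⟩
    exact (Finset.disjoint_left.1 hA3) (hg _ hvA) hvZ
  · exfalso
    obtain ⟨y, hy1, hy2, hy3⟩ := hA5 g (mem_filter.2 ⟨hgK, hgF⟩)
    exact hy3 (k2 y hy1 hy2)

end

/-- **Main theorem on finite group actions.** If a finite group acts on a finite set `V` such that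
an invariant set of size at most `m` together with `e` further points forms a base, and if some
subset of `V` has trivial setwise stabiliser, then some subset of size at most `C(e, m)` has trivial
setwise stabiliser. -/
theorem bounded (e : ℕ) : ∀ m : ℕ, ∃ C : ℕ, ∀ (Γ V : Type) [Group Γ] [Fintype Γ] [DecidableEq Γ]
    [Fintype V] [DecidableEq V] [MulAction Γ V] (Sg : Finset V) (b : Fin e → V),
    Setup Γ e Sg b → Sg.card ≤ m →
    (∃ X : Finset V, ∀ g : Γ, (∀ v ∈ X, g • v ∈ X) → g = 1) →
    ∃ S : Finset V, S.card ≤ C ∧ ∀ g : Γ, (∀ v ∈ S, g • v ∈ S) → g = 1 := by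
  induction e with
  | zero =>
    intro m
    refine ⟨smallBound 0 m, ?_⟩
    intro Γ V _ _ _ _ _ _ Sg b hS hm hX
    exact direct hS hm (fun i => i.elim0) hX
  | succ e ih =>
    intro m
    obtain ⟨C', hC'⟩ := ih (m + orbBound (e + 1) m)
    refine ⟨max (smallBound (e + 1) m) C', ?_⟩
    intro Γ V _ _ _ _ _ _ Sg b hS hm hX
    by_cases hN : ∀ i, orbBound (e + 1) m < (orb Γ (b i)).card
    · obtain ⟨S, hS1, hS2⟩ := direct hS hm hN hX
      exact ⟨S, hS1.trans (le_max_left _ _), hS2⟩
    · push Not at hN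
      obtain ⟨i₀, hi₀⟩ := hN
      have hS' : Setup Γ e (Sg ∪ orb Γ (b i₀)) (fun j => b (i₀.succAbove j)) := by
        constructor
        · intro g v hv
          rcases mem_union.1 hv with h | h
          · exact mem_union_left _ (hS.inv g v h)
          · obtain ⟨x, rfl⟩ := mem_orb.1 h
            exact mem_union_right _ (mem_orb.2 ⟨g * x, mul_smul _ _ _⟩)
        · intro g hg1 hg2
          apply hS.base g
          · intro v hv
            exact hg1 v (mem_union_left _ hv)
          · intro i
            rcases Fin.eq_self_or_eq_succAbove i₀ i with h | ⟨j, h⟩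
            · rw [h]
              exact hg1 _ (mem_union_right _ (mem_orb.2 ⟨1, one_smul _ _⟩))
            · rw [h]
              exact hg2 j
      obtain ⟨S, hS1, hS2⟩ := hC' Γ V (Sg ∪ orb Γ (b i₀)) (fun j => b (i₀.succAbove j)) hS'
        ((Finset.card_union_le _ _).trans (Nat.add_le_add hm hi₀)) hX
      exact ⟨S, hS1.trans (le_max_right _ _), hS2⟩

end Pool.Agent.Lib.MP_ff3c98_co
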